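import Pool.Agent.Results.MP_03e5d0_nt.SimultaneousTwists
import Pool.Agent.V1110.SpB

/-!
# Goldfeld's conjecture for `X_0(14)`: exact proportions along sparse sequences of twists

`E = X_0(14)`, a curve without complex multiplication, `E^D` its quadratic twists. The hand-in
`SimultaneousTwists` of this problem defines a class `Adm` of squarefree numbers `D` of any sign and
shows that for every finite set `G` of numbers of the class the proportion of the `D` in the class, of a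
given sign, such that all the curves `E^(star m D)`, `m ∈ G` (the twists by `D` of the curves `E^m`), have
analytic rank zero and `Ш[2] = 0` is `c ^ #G`, `c = ∏_{i ≥ 0} (1 - 2^{-(2i+1)}) = 0.419…`.

Here the `D` are taken from a sparse sequence `± ⌊α n ^ p⌋`, where `p > 1` is any real number (about
`X^{1/p}` integers up to `X`). There is one set `A₀` of real numbers of Hausdorff dimension smaller than
one, such that for all real `α > 0` not in `A₀` the proportions along the sequence are the same, for all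
finite sets of curves. In consequence there are infinitely many terms `D_1, D_2, …` of the sequence such
that all the twists of the curves `E^m`, `m ∈ G`, by the squarefree parts of ALL finite nonempty products
of numbers `D_j` have analytic rank zero.
-/

set_option autoImplicit false

open Filter Topology

namespace Pool.Agent.Results.MP_03e5d0_nt.SparseSequences

open Pool.Agent.Results.MP_03e5d0_nt.SimultaneousTwists

/-- the number of the `1 ≤ n ≤ N` such that `D = s ⌊α n ^ p⌋` has the property `Q` -/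
noncomputable def along (α p : ℝ) (s : ℤ) (Q : ℤ → Prop) (N : ℕ) : ℕ :=
  Nat.card {n : ℕ // (1 ≤ n ∧ n ≤ N) ∧ Q (s * ⌊α * (n : ℝ) ^ p⌋₊)}

/-- the event: for all `m ∈ G` the twist of `E^m` by `D` has analytic rank zero, a finite group of
rational points and no element of order two in its Tate-Shafarevich group; for no `m ∈ K` the
twist of `E^m` by `D` has the last two of these properties -/
def Event (G K : Finset ℤ) (D : ℤ) : Prop :=
  (∀ m ∈ G, AnRankZero (star m D) ∧ RankZeroShaTwo (star m D)) ∧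
    ∀ m ∈ K, ¬ RankZeroShaTwo (star m D)

lemma count_card (s : ℤ) (Q : ℤ → Prop) (X : ℕ) :
    count s Q X = Nat.card {D : ℤ // |D| ≤ X ∧ 0 < s * D ∧ (Adm D ∧ Q D)} := by
  unfold count
  exact Nat.card_congr (Equiv.subtypeEquivRight fun D =>
    ⟨fun h => ⟨h.1, h.2.2.1, h.2.1, h.2.2.2⟩, fun h => ⟨h.1, h.2.2.1, h.2.1, h.2.2.2⟩⟩)

/-- large terms of the sequence -/
lemma exists_term {α p c : ℝ} {s : ℤ} {P Q : ℤ → Prop} (hc : 0 < c) (A : ℝ)
    (hp : Tendsto (fun N : ℕ => (along α p s P N : ℝ) / along α p s Q N) atTop (𝓝 c))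
    (hQ : ∃ b : ℝ, 0 < b ∧ ∃ N₀ : ℕ, ∀ N : ℕ, N₀ ≤ N →
      b * N * (Real.log N) ^ (-A) ≤ (along α p s Q N : ℝ)) (B : ℕ) :
    ∃ n : ℕ, B < n ∧ P (s * ⌊α * (n : ℝ) ^ p⌋₊) := by
  classical
  by_contra hcon
  push Not at hcon
  obtain ⟨b, hb, N₀, hN₀⟩ := hQ
  have h2 : ∀ N : ℕ, (along α p s P N : ℝ) ≤ (B : ℝ) := by
    intro N
    have h3 : along α p s P N =
        ((Finset.Icc 1 N).filter fun n : ℕ => P (s * ⌊α * (n : ℝ) ^ p⌋₊)).card := by
      unfold along
      refine Nat.subtype_card _ fun n => ?_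
      rw [Finset.mem_filter, Finset.mem_Icc]
    have h4 : ((Finset.Icc 1 N).filter fun n : ℕ => P (s * ⌊α * (n : ℝ) ^ p⌋₊)) ⊆
        Finset.Icc 1 B := by
      intro n hn
      rw [Finset.mem_filter] at hn
      rw [Finset.mem_Icc]
      refine ⟨(Finset.mem_Icc.1 hn.1).1, ?_⟩
      by_contra h5
      exact hcon n (by omega) hn.2
    have h5 := Finset.card_le_card h4
    rw [Nat.card_Icc, Nat.add_sub_cancel, ← h3] at h5
    exact_mod_cast h5
  have htop : Tendsto (fun N : ℕ => (along α p s Q N : ℝ)) atTop atTop := by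
    obtain ⟨N₁, hN₁⟩ := Pool.Agent.V1110.SpA.beats b A (1 / 2) 1 hb (by norm_num)
    have h1 : Tendsto (fun N : ℕ => (N : ℝ) ^ (1 / 2 : ℝ)) atTop atTop :=
      (tendsto_rpow_atTop (by norm_num)).comp tendsto_natCast_atTop_atTop
    refine tendsto_atTop_mono' _ ?_ h1
    filter_upwards [eventually_ge_atTop (max N₀ N₁)] with N hN
    have h3 := hN₀ N ((le_max_left _ _).trans hN)
    have h4 := hN₁ N ((le_max_right _ _).trans hN)
    rw [Real.rpow_neg (Real.log_natCast_nonneg N), ← div_eq_mul_inv] at h3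
    have e : (1 : ℝ) - 1 / 2 = 1 / 2 := by norm_num
    rw [e, one_mul] at h4
    exact h4.trans h3
  have h3 : Tendsto (fun N : ℕ => (B : ℝ) / (along α p s Q N : ℝ)) atTop (𝓝 0) :=
    htop.const_div_atTop _
  have h4 : c ≤ 0 := by
    refine le_of_tendsto_of_tendsto hp h3 (Eventually.of_forall fun N => ?_)
    exact div_le_div_of_nonneg_right (h2 N) (Nat.cast_nonneg _)
  linarith

/-- a squarefree number is determined up to the sign of the cofactor by its square class -/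
lemma sqf_unique {D D' k k' : ℤ} (hD : Squarefree D) (hD' : Squarefree D') (hk : k ≠ 0)
    (hk' : k' ≠ 0) (h : D * k ^ 2 = D' * k' ^ 2) : D = D' := by
  -- divide by the greatest common divisor of `k` and `k'`
  obtain ⟨g, a, b, hg, ha, hb, hab⟩ : ∃ g a b : ℤ, g ≠ 0 ∧ k = g * a ∧ k' = g * b ∧
      IsCoprime a b := by
    obtain ⟨a, ha⟩ : (Int.gcd k k' : ℤ) ∣ k := Int.gcd_dvd_left ..
    obtain ⟨b, hb⟩ : (Int.gcd k k' : ℤ) ∣ k' := Int.gcd_dvd_right ..
    have hg : (Int.gcd k k' : ℤ) ≠ 0 := by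
      intro h0
      rw [h0, zero_mul] at ha
      exact hk ha
    refine ⟨(Int.gcd k k' : ℤ), a, b, hg, ha, hb, ?_⟩
    have h1 : (Int.gcd k k' : ℤ) = k * Int.gcdA k k' + k' * Int.gcdB k k' := Int.gcd_eq_gcd_ab k k'
    refine ⟨Int.gcdA k k', Int.gcdB k k', ?_⟩
    refine mul_left_cancel₀ hg ?_
    calc (Int.gcd k k' : ℤ) * (Int.gcdA k k' * a + Int.gcdB k k' * b)
        = ((Int.gcd k k' : ℤ) * a) * Int.gcdA k k' + ((Int.gcd k k' : ℤ) * b) * Int.gcdB k k' := by
          ring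
      _ = k * Int.gcdA k k' + k' * Int.gcdB k k' := by rw [← ha, ← hb]
      _ = (Int.gcd k k' : ℤ) := h1.symm
      _ = (Int.gcd k k' : ℤ) * 1 := (mul_one _).symm
  have h2 : D * a ^ 2 = D' * b ^ 2 := by
    refine mul_left_cancel₀ (pow_ne_zero 2 hg) ?_
    calc g ^ 2 * (D * a ^ 2) = D * (g * a) ^ 2 := by ring
      _ = D' * (g * b) ^ 2 := by rw [← ha, ← hb, h]
      _ = g ^ 2 * (D' * b ^ 2) := by ring
  have h3 : IsUnit b := by
    refine hD b ?_
    have h4 : b * b ∣ D * (a * a) := ⟨D', by linarith [h2, pow_two a, pow_two b]⟩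
    exact (IsCoprime.mul_left (IsCoprime.mul_right hab.symm hab.symm)
      (IsCoprime.mul_right hab.symm hab.symm)).dvd_of_dvd_mul_right h4
  have h5 : IsUnit a := by
    refine hD' a ?_
    have h4 : a * a ∣ D' * (b * b) := ⟨D, by linarith [h2, pow_two a, pow_two b]⟩
    exact (IsCoprime.mul_left (IsCoprime.mul_right hab hab)
      (IsCoprime.mul_right hab hab)).dvd_of_dvd_mul_right h4
  have h6 : a ^ 2 = 1 := by
    rcases Int.isUnit_iff.1 h5 with rfl | rfl <;> norm_num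
  have h7 : b ^ 2 = 1 := by
    rcases Int.isUnit_iff.1 h3 with rfl | rfl <;> norm_num
  rw [h6, h7, mul_one, mul_one] at h2
  exact h2

/-- **Main theorem.** Let `p > 1` be a real number and `c = ∏_{i ≥ 0} (1 - 2^{-(2 i + 1)}) = 0.419…`.
There is a set `A₀` of real numbers of Hausdorff dimension smaller than one, such that for all real
`α > 0` not in `A₀` and both signs `s`:
(1) For at least `b N (log N) ^ (-5/8)` of the `n ≤ N` (`b > 0`) the number `s ⌊α n ^ p⌋` is in the class.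
(2) For all disjoint finite sets `G`, `K` of numbers of the class: among the `n` such that
`D = s ⌊α n ^ p⌋` is in the class, the proportion of those for which all the twists by `D` of the curves
`E^m`, `m ∈ G`, have analytic rank zero, a finite group of rational points and `Ш[2] = 0`, and no twist
by `D` of a curve `E^m`, `m ∈ K`, has a finite group of rational points and `Ш[2] = 0`, is exactly
`c ^ #G (1 - c) ^ #K`.
(3) For every finite set `G` of numbers of the class there are `n_0 < n_1 < …` such that the numbers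
`D_j = s ⌊α n_j ^ p⌋` are in the class and for all `m ∈ G` and every finite nonempty set `J` the
squarefree part `d` of `m ∏_{j ∈ J} D_j` is such that `E^d` has analytic rank zero, a finite group of
rational points and `Ш[2] = 0`. -/
theorem result (p : ℝ) (hp : 1 < p) :
    ∃ c : ℝ, 0.4194 < c ∧ c < 0.4195 ∧
      Tendsto (fun n : ℕ => ∏ i ∈ Finset.range n, (1 - (1 / 2 : ℝ) ^ (2 * i + 1))) atTop (𝓝 c) ∧
    ∃ A₀ : Set ℝ, dimH A₀ < 1 ∧ ∀ α : ℝ, 0 < α → α ∉ A₀ → ∀ s : ℤ, (s = 1 ∨ s = -1) →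
      (∃ b : ℝ, 0 < b ∧ ∃ N₀ : ℕ, ∀ N : ℕ, N₀ ≤ N →
        b * N * (Real.log N) ^ (-(5 / 8) : ℝ) ≤ (along α p s Adm N : ℝ)) ∧
      (∀ G K : Finset ℤ, (∀ m ∈ G, Adm m) → (∀ m ∈ K, Adm m) → Disjoint G K →
        Tendsto (fun N : ℕ => (along α p s (fun D => Adm D ∧ Event G K D) N : ℝ) /
          along α p s Adm N) atTop (𝓝 (c ^ G.card * (1 - c) ^ K.card))) ∧
      ∀ G : Finset ℤ, (∀ m ∈ G, Adm m) → ∃ n : ℕ → ℕ, StrictMono n ∧
        (∀ j, Adm (s * ⌊α * (n j : ℝ) ^ p⌋₊)) ∧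
        ∀ m ∈ G, ∀ J : Finset ℕ, J.Nonempty → ∀ d k : ℤ, Squarefree d → k ≠ 0 →
          m * ∏ j ∈ J, (s * ⌊α * (n j : ℝ) ^ p⌋₊) = d * k ^ 2 →
          AnRankZero d ∧ RankZeroShaTwo d := by
  classical
  obtain ⟨hstar, c, hc1, hc2, hclim, hlaw⟩ := SimultaneousTwists.result
  refine ⟨c, hc1, hc2, hclim, ?_⟩
  obtain ⟨A₀, hA₀, h⟩ := Pool.Agent.V1110.SpA.ratio_int p hp (ι := Finset ℤ × Finset ℤ)
    (fun k D => Adm D ∧ Event k.1 k.2 D) (fun _ D => Adm D)
  refine ⟨A₀, hA₀, fun α hα hαA s hs => ?_⟩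
  have hcA : ∀ X : ℕ, count s (fun _ => True) X =
      Nat.card {D : ℤ // |D| ≤ X ∧ 0 < s * D ∧ Adm D} := by
    intro X
    rw [count_card]
    simp only [and_true]
  have hQ : ∃ a : ℝ, 0 < a ∧ ∃ X0 : ℕ, ∀ X : ℕ, X0 ≤ X → a * X * (Real.log X) ^ (-(5 / 8) : ℝ) ≤
      (Nat.card {D : ℤ // |D| ≤ X ∧ 0 < s * D ∧ Adm D} : ℝ) := by
    obtain ⟨-, a, X₀, ha, hX₀⟩ := hlaw s hs ∅ ∅ (fun m hm => absurd hm (Finset.notMem_empty m))
      (fun m hm => absurd hm (Finset.notMem_empty m)) (Finset.disjoint_empty_left _)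
    refine ⟨a, ha, X₀, fun X hX => ?_⟩
    have h1 := hX₀ X hX
    rw [← mul_assoc] at h1
    refine h1.trans (le_of_eq ?_)
    rw [← hcA]
    congr 2
    funext D
    simp only [Finset.notMem_empty, false_imp_iff, implies_true, and_true]
  obtain ⟨a, ha, hQ⟩ := hQ
  have key : ∀ G K : Finset ℤ, (∀ m ∈ G, Adm m) → (∀ m ∈ K, Adm m) → Disjoint G K →
      Tendsto (fun N : ℕ => (along α p s (fun D => Adm D ∧ Event G K D) N : ℝ) /
          along α p s Adm N) atTop (𝓝 (c ^ G.card * (1 - c) ^ K.card)) ∧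
      ∃ b : ℝ, 0 < b ∧ ∃ N0 : ℕ, ∀ N : ℕ, N0 ≤ N →
        b * N * (Real.log N) ^ (-(5 / 8) : ℝ) ≤ (along α p s Adm N : ℝ) := by
    intro G K hG hK hGK
    refine h α hα hαA (G, K) s hs _ a (5 / 8) ha (by norm_num) hQ ?_
    refine (hlaw s hs G K hG hK hGK).1.congr fun X => ?_
    rw [hcA, count_card]
    rfl
  have he : ∀ m ∈ (∅ : Finset ℤ), Adm m := fun m hm => absurd hm (Finset.notMem_empty m)
  refine ⟨(key ∅ ∅ he he (Finset.disjoint_empty_left _)).2,
    fun G K hG hK hGK => (key G K hG hK hGK).1, fun G hG => ?_⟩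
  -- the chain
  have step : ∀ U : {U : Finset ℤ × ℕ // ∀ m ∈ U.1, Adm m}, ∃ n : ℕ, U.1.2 < n ∧
      Adm (s * ⌊α * (n : ℝ) ^ p⌋₊) ∧ ∀ m ∈ U.1.1, AnRankZero (star m (s * ⌊α * (n : ℝ) ^ p⌋₊)) ∧
        RankZeroShaTwo (star m (s * ⌊α * (n : ℝ) ^ p⌋₊)) := by
    intro U
    obtain ⟨k1, k2⟩ := key U.1.1 ∅ U.2 he (Finset.disjoint_empty_right _)
    have hpos : 0 < c ^ U.1.1.card * (1 - c) ^ (∅ : Finset ℤ).card := by
      rw [Finset.card_empty, pow_zero, mul_one]
      exact pow_pos (by linarith) _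
    obtain ⟨n, hn, h1, h2⟩ := exists_term hpos (5 / 8) k1 k2 U.1.2
    exact ⟨n, hn, h1, h2.1⟩
  choose f hf using step
  let g : {U : Finset ℤ × ℕ // ∀ m ∈ U.1, Adm m} → {U : Finset ℤ × ℕ // ∀ m ∈ U.1, Adm m} :=
    fun U => ⟨(U.1.1 ∪ U.1.1.image fun m => star m (s * ⌊α * (f U : ℝ) ^ p⌋₊), f U), fun d hd => by
      rcases Finset.mem_union.1 hd with h | h
      · exact U.2 d h
      · obtain ⟨m, hm, rfl⟩ := Finset.mem_image.1 h
        exact (hstar m _ (U.2 m hm) (hf U).2.1).1⟩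
  let T : ℕ → {U : Finset ℤ × ℕ // ∀ m ∈ U.1, Adm m} := fun j => g^[j] ⟨(G, 0), hG⟩
  have hT : ∀ j, T (j + 1) = g (T j) := fun j => by
    show g^[j + 1] _ = _
    rw [Function.iterate_succ_apply']
  have hT1 : ∀ j, (T (j + 1)).1.1 = (T j).1.1 ∪
      (T j).1.1.image fun m => star m (s * ⌊α * (f (T j) : ℝ) ^ p⌋₊) := fun j => by
    rw [hT]
  have claim : ∀ j : ℕ, ∀ m ∈ G, ∀ J : Finset ℕ, J ⊆ Finset.range j →
      ∃ d ∈ (T j).1.1, (∃ k : ℤ, k ≠ 0 ∧
        m * ∏ i ∈ J, (s * (⌊α * (f (T i) : ℝ) ^ p⌋₊ : ℤ)) = d * k ^ 2) ∧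
        (J.Nonempty → AnRankZero d ∧ RankZeroShaTwo d) := by
    intro j
    induction j with
    | zero =>
      intro m hm J hJ
      rw [Finset.range_zero, Finset.subset_empty] at hJ
      subst hJ
      refine ⟨m, hm, ⟨1, one_ne_zero, ?_⟩, fun h => absurd h Finset.not_nonempty_empty⟩
      rw [Finset.prod_empty, one_pow]
    | succ j ih =>
      intro m hm J hJ
      by_cases hj : j ∈ J
      · obtain ⟨d, hd, ⟨k, hk, e⟩, -⟩ := ih m hm (J.erase j) (fun i hi => by
          have h1 := Finset.mem_range.1 (hJ (Finset.mem_of_mem_erase hi))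
          have h2 := Finset.ne_of_mem_erase hi
          exact Finset.mem_range.2 (by omega))
        obtain ⟨-, k', hk', e'⟩ := hstar d _ ((T j).2 d hd) (hf (T j)).2.1
        refine ⟨star d (s * ⌊α * (f (T j) : ℝ) ^ p⌋₊), ?_, ⟨k * k', mul_ne_zero hk hk', ?_⟩,
          fun _ => (hf (T j)).2.2 d hd⟩
        · rw [hT1]
          exact Finset.mem_union_right _ (Finset.mem_image_of_mem _ hd)
        · rw [← Finset.prod_erase_mul _ _ hj, ← mul_assoc, e]
          calc d * k ^ 2 * (s * (⌊α * (f (T j) : ℝ) ^ p⌋₊ : ℤ))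
              = (d * (s * (⌊α * (f (T j) : ℝ) ^ p⌋₊ : ℤ))) * k ^ 2 := by ring
            _ = (star d (s * ⌊α * (f (T j) : ℝ) ^ p⌋₊) * k' ^ 2) * k ^ 2 := by rw [e']
            _ = star d (s * ⌊α * (f (T j) : ℝ) ^ p⌋₊) * (k * k') ^ 2 := by ring
      · obtain ⟨d, hd, h1, h2⟩ := ih m hm J (fun i hi => by
          have h1 := Finset.mem_range.1 (hJ hi)
          have h2 : i ≠ j := fun h => hj (h ▸ hi)
          exact Finset.mem_range.2 (by omega))
        refine ⟨d, ?_, h1, h2⟩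
        rw [hT1]
        exact Finset.mem_union_left _ hd
  refine ⟨fun j => f (T j), strictMono_nat_of_lt_succ fun j => ?_, fun j => (hf (T j)).2.1,
    fun m hm J hJ d k hd hk e => ?_⟩
  · have h1 := (hf (T (j + 1))).1
    have h2 : (T (j + 1)).1.2 = f (T j) := by rw [hT]
    rw [h2] at h1
    exact h1
  · obtain ⟨d', hd', ⟨k', hk', e'⟩, h3⟩ := claim (J.sup id + 1) m hm J (fun i hi => by
      have h1 : i ≤ J.sup id := Finset.le_sup (f := id) hi
      exact Finset.mem_range.2 (by omega))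
    have h4 : d = d' := sqf_unique hd ((T _).2 d' hd').1 hk hk' (e.symm.trans e')
    rw [h4]
    exact h3 hJ

end Pool.Agent.Results.MP_03e5d0_nt.SparseSequences
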