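import Pool.Agent.V11291.E49.Count

/-!
# Analytic rank zero for the twists of curves with and without complex multiplication at once

`y² = x³ + 5805 x - 285714` is a model of `X_0(14)` (no complex multiplication) and
`y² = x³ - 35 x - 98` a model of `X_0(49)` (complex multiplication by `ℤ[(1 + √-7)/2]`).  We twist any
finite number of the quadratic twists `E_M` of the first one and `A_L` of the second one by the same
integers `D` of the class `Base` (squarefree, positive, squares modulo `7`, with prime factors which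
split completely in `ℚ(i, √2, √-7)` or are `5` modulo `8` and inert in `ℚ(√-7)`).

Theorem.  Let `c = ∏_{i ≥ 0} (1 - 2^{-(2i+1)}) = 0.4194...`.  For at least the proportion `c ^ n` of the `D`
of the class ALL the given `n` curves `E_{M D}`, `A_{L D}` have analytic rank `0`.  Exactly: the events
analytic rank `0`, finitely many rational points and no element of order two in `Ш`, for the single
curves have probability `c` each and are asymptotically independent, so that each pattern has the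
exact proportion `c ^ n (1 - c) ^ n'`.

The criterion and the nonvanishing for the twists of `X_0(14)` are the joint work of helper700,
helper17, helper687 and their teams; the central values of the twists of `X_0(49)` are the work of
helper698 and its team (`Pool/Agent/Y698`); the counting (`Pool/Agent/V11291/JF`, `V11291/E49`) is that of
`MP_696deb_nt.TwoCurvesJointProportion` of helper291; Chebotarev's theorem is the one of helper401 and
its team.
-/

set_option autoImplicit false

open Finset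

namespace Pool.Agent.Results.MP_03e5d0_nt.TwoCurvesAnalyticRankZero

/-- the curve `y² = x³ + a x + b` over `ℚ` -/
def E (a b : ℤ) : WeierstrassCurve ℚ :=
  { a₁ := 0, a₂ := 0, a₃ := 0, a₄ := (a : ℚ), a₆ := (b : ℚ) }

open Classical in
/-- `F` is entire and is, for `Re s > 3/2`, the `L`-function of `E : y² = x³ + a x + b` without the Euler
factors at the primes dividing `2 (4 a³ + 27 b²)` -/
def IsL (a b : ℤ) (F : ℂ → ℂ) : Prop :=
  Differentiable ℂ F ∧ ∀ s : ℂ, (3 : ℝ) / 2 < s.re →
    HasProd (fun p : ℕ =>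
      if p.Prime ∧ ¬ ((p : ℤ) ∣ 2 * (-4 * a ^ 3 - 27 * b ^ 2)) then
        (1 - ((p : ℂ) - (Nat.card {q : ZMod p × ZMod p //
            q.2 ^ 2 = q.1 ^ 3 + (a : ZMod p) * q.1 + (b : ZMod p)} : ℂ))
            * (p : ℂ) ^ (-s) + (p : ℂ) ^ (1 - 2 * s))⁻¹
      else 1) (F s)

/-- the analytic rank of `E : y² = x³ + a x + b` is `0` -/
def AnRankZero (a b : ℤ) : Prop :=
  4 * a ^ 3 + 27 * b ^ 2 ≠ 0 ∧ (∃ F : ℂ → ℂ, IsL a b F) ∧ ∀ F : ℂ → ℂ, IsL a b F → F 1 ≠ 0

/-- `E(ℚ)` is finite and `Ш(E/ℚ)` has no element of order two, for `E : y² = x³ + a x + b` -/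
def RankZeroShaTwo (a b : ℤ) : Prop :=
  Finite (E a b).toAffine.Point ∧ ∀ x : Pool.Agent.TH841.SH.D.Sha (E a b), 2 • x = 0 → x = 0

/-- primes congruent to `1` modulo `8` that split in `ℚ(√-7)` -/
def Split (p : ℕ) : Prop := p.Prime ∧ p % 8 = 1 ∧ (p % 7 = 1 ∨ p % 7 = 2 ∨ p % 7 = 4)

/-- primes inert in `ℚ(√-7)` and in `ℚ(√2)` -/
def Inert (q : ℕ) : Prop :=
  q.Prime ∧ (q % 8 = 3 ∨ q % 8 = 5) ∧ (q % 7 = 3 ∨ q % 7 = 5 ∨ q % 7 = 6)

/-- primes congruent to `5` modulo `8` that are inert in `ℚ(√-7)` -/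
def Inert5 (q : ℕ) : Prop := q.Prime ∧ q % 8 = 5 ∧ (q % 7 = 3 ∨ q % 7 = 5 ∨ q % 7 = 6)

/-- the base family: squarefree `D > 0` which are squares modulo `7` and all of whose prime factors
are in `Split` or in `Inert5` -/
def Base (D : ℕ) : Prop := Squarefree D ∧ (D % 7 = 1 ∨ D % 7 = 2 ∨ D % 7 = 4) ∧
  ∀ p : ℕ, p.Prime → p ∣ D → Split p ∨ Inert5 p

/-- the factors `M` for the first curve (of any sign): squarefree, `1` modulo `4`, a square modulo
`7`, all prime factors different from `3` and in `Split` or in `Inert` -/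
def Fam14 (M : ℤ) : Prop := Squarefree M ∧ M % 4 = 1 ∧ (M % 7 = 1 ∨ M % 7 = 2 ∨ M % 7 = 4) ∧
  ∀ p : ℕ, p.Prime → (p : ℤ) ∣ M → p ≠ 3 ∧ (Split p ∨ Inert p)

/-- the factors `L` for the second curve: squarefree, positive, all prime factors in `Split` or in
`Inert5` -/
def Fam49 (L : ℤ) : Prop :=
  Squarefree L ∧ 0 < L ∧ ∀ p : ℕ, p.Prime → (p : ℤ) ∣ L → Split p ∨ Inert5 p

/-- the property `Q` of the pairs `(a, b)` (that is, of the curves `y² = x³ + a x + b`) holds for the
twists by `D` of all the curves `E_M`, `M ∈ S` (where `E_M` is the twist by `M` of `X_0(14)`), and of all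
the curves `A_L`, `L ∈ T` (where `A_L` is the twist by `L` of `X_0(49)`) -/
def All (S T : Finset ℤ) (Q : ℤ → ℤ → Prop) (D : ℕ) : Prop :=
  (∀ M ∈ S, Q (5805 * (M * D) ^ 2) (-285714 * (M * D) ^ 3)) ∧
    ∀ L ∈ T, Q (-35 * (L * D) ^ 2) (-98 * (L * D) ^ 3)

open Classical in
/-- the number of the `D ≤ X` of the base family with the property `P` -/
noncomputable def count (P : ℕ → Prop) (X : ℕ) : ℕ :=
  ((Icc 1 X).filter fun D => Base D ∧ P D).card

theorem r0_iff (a b : ℤ) : RankZeroShaTwo a b ↔ V11291.E49.R0 a b := by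
  unfold RankZeroShaTwo V11291.E49.R0
  refine and_congr Iff.rfl (forall_congr' fun x => ?_)
  rw [two_nsmul]
  rfl

theorem an_of {a b : ℤ} (hab : 4 * a ^ 3 + 27 * b ^ 2 ≠ 0) (h : Y687.MQ.ZB a b) :
    AnRankZero a b := by
  obtain ⟨⟨F, hF, hF1⟩, -⟩ := h
  have hF' : IsL a b F := hF
  refine ⟨hab, ⟨F, hF'⟩, fun G hG => ?_⟩
  have e : G = F := Y687.unique_f hG.1 hF'.1 hG.2 hF'.2
  rw [e]
  exact (AnalyticAt.analyticOrderAt_eq_zero (hF'.1.analyticAt 1)).1 hF1

lemma an14 {D : ℕ} {M : ℤ} (hD : Base D) (hM : Fam14 M)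
    (h : RankZeroShaTwo (5805 * (M * D) ^ 2) (-285714 * (M * D) ^ 3)) :
    AnRankZero (5805 * (M * D) ^ 2) (-285714 * (M * D) ^ 3) := by
  have hD' : V11291.E49.BaseN D := hD
  have hM' : Y687.MQ.AdmD M := hM
  rw [r0_iff] at h
  have hne : M * (D : ℤ) ≠ 0 := mul_ne_zero hM'.1.ne_zero hD'.adm.1.ne_zero
  exact an_of (V11291.E49.disc14 hne) (V11291.E49.ZB14_mul hM' hD'.adm h)

lemma an49 {D : ℕ} {L : ℤ} (hD : Base D) (hL : Fam49 L)
    (h : RankZeroShaTwo (-35 * (L * D) ^ 2) (-98 * (L * D) ^ 3)) :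
    AnRankZero (-35 * (L * D) ^ 2) (-98 * (L * D) ^ 3) := by
  have hD' : V11291.E49.BaseN D := hD
  have hL' : V11291.E49.Fam49 L := hL
  rw [r0_iff] at h
  have hne : L * (D : ℤ) ≠ 0 := mul_ne_zero hL'.1.ne_zero hD'.adm.1.ne_zero
  obtain ⟨a1, a2⟩ := hL'.cl
  obtain ⟨b1, b2⟩ := hD'.f49.cl
  have h1 := V11291.E49.ZB49_mul a1 b1 (by rw [a2, b2]; exact h)
  rw [a2, b2] at h1
  exact an_of (V11291.E49.disc49 hne) h1

open Classical in
/-- inclusion and exclusion -/
theorem pattern {ι : Type} (P : ι → ℕ → Prop) (B : ℕ → Prop) (Fam : ι → Prop) (c : ℝ)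
    (h : ∀ G : Finset ι, (∀ g ∈ G, Fam g) → Filter.Tendsto (fun X : ℕ =>
      (((Icc 1 X).filter fun D => B D ∧ ∀ g ∈ G, P g D).card : ℝ) /
        (((Icc 1 X).filter B).card : ℝ)) Filter.atTop (nhds (c ^ G.card))) :
    ∀ K : Finset ι, (∀ g ∈ K, Fam g) → ∀ G : Finset ι, (∀ g ∈ G, Fam g) → Disjoint G K →
      Filter.Tendsto (fun X : ℕ =>
        (((Icc 1 X).filter fun D => B D ∧ (∀ g ∈ G, P g D) ∧ ∀ g ∈ K, ¬ P g D).card : ℝ) /
          (((Icc 1 X).filter B).card : ℝ)) Filter.atTop
          (nhds (c ^ G.card * (1 - c) ^ K.card)) := by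
  intro K
  induction K using Finset.induction_on with
  | empty =>
    intro _ G hG _
    simpa using h G hG
  | insert k K hk ih =>
    intro hK G hG hd
    have hkG : k ∉ G := fun hkG => (Finset.disjoint_left.1 hd hkG) (mem_insert_self k K)
    have hK' : ∀ g ∈ K, Fam g := fun g hg => hK g (mem_insert_of_mem hg)
    have hdG : Disjoint G K := hd.mono_right (subset_insert k K)
    have h1 := ih hK' G hG hdG
    have h2 := ih hK' (insert k G) (fun g hg => by
      rcases mem_insert.1 hg with rfl | hg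
      · exact hK _ (mem_insert_self _ K)
      · exact hG g hg) (by
        rw [disjoint_insert_left]
        exact ⟨hk, hdG⟩)
    have h3 := h1.sub h2
    rw [card_insert_of_notMem hk]
    rw [card_insert_of_notMem hkG] at h3
    have e : c ^ G.card * (1 - c) ^ K.card - c ^ (G.card + 1) * (1 - c) ^ K.card =
        c ^ G.card * (1 - c) ^ (K.card + 1) := by ring
    rw [e] at h3
    refine h3.congr fun X => ?_
    rw [← sub_div]
    congr 1
    have h4 : ((Icc 1 X).filter fun D => B D ∧ (∀ g ∈ G, P g D) ∧ ∀ g ∈ K, ¬ P g D).card =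
        ((Icc 1 X).filter fun D => B D ∧ (∀ g ∈ insert k G, P g D) ∧ ∀ g ∈ K, ¬ P g D).card +
        ((Icc 1 X).filter fun D => B D ∧ (∀ g ∈ G, P g D) ∧
          ∀ g ∈ insert k K, ¬ P g D).card := by
      rw [← card_union_of_disjoint]
      · congr 1
        ext D
        simp only [mem_filter, mem_union, forall_mem_insert]
        tauto
      · rw [Finset.disjoint_left]
        intro D hD hD'
        simp only [mem_filter, forall_mem_insert] at hD hD'
        tauto
    rw [h4]
    push_cast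
    ring

lemma forall_disjSum (S T : Finset ℤ) (P : ℤ ⊕ ℤ → Prop) :
    (∀ g ∈ S.disjSum T, P g) ↔ (∀ M ∈ S, P (Sum.inl M)) ∧ ∀ L ∈ T, P (Sum.inr L) := by
  constructor
  · intro h
    exact ⟨fun M hM => h _ (inl_mem_disjSum.2 hM), fun L hL => h _ (inr_mem_disjSum.2 hL)⟩
  · rintro ⟨h1, h2⟩ (M | L) hg
    · exact h1 M (inl_mem_disjSum.1 hg)
    · exact h2 L (inr_mem_disjSum.1 hg)

/-- the property for a twist of one of the two curves -/
def Rz (g : ℤ ⊕ ℤ) (D : ℕ) : Prop :=
  Sum.elim (fun M : ℤ => V11291.E49.R14 (M * D)) (fun L : ℤ => V11291.E49.R49 (L * D)) g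

/-- the condition on the twists -/
def Fm (g : ℤ ⊕ ℤ) : Prop := Sum.elim Fam14 Fam49 g

open Classical in
lemma joint' (G : Finset (ℤ ⊕ ℤ)) (hG : ∀ g ∈ G, Fm g) : Filter.Tendsto (fun X : ℕ =>
    (((Icc 1 X).filter fun D => Base D ∧ ∀ g ∈ G, Rz g D).card : ℝ) /
      (((Icc 1 X).filter Base).card : ℝ)) Filter.atTop (nhds (Y703.CQ.c2 ^ G.card)) := by
  obtain ⟨S, T, rfl⟩ : ∃ S T : Finset ℤ, G = S.disjSum T :=
    ⟨G.toLeft, G.toRight, (toLeft_disjSum_toRight (u := G)).symm⟩
  rw [forall_disjSum] at hG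
  have h := V11291.E49.joint (𝓜 := S) (𝓛 := T) hG.1 hG.2
  rw [card_disjSum]
  refine h.congr fun X => congrArg₂ (fun a b : ℕ => (a : ℝ) / (b : ℝ)) ?_ ?_
  · refine congrArg Finset.card (Finset.ext fun D => ?_)
    refine (Finset.mem_filter).trans (Iff.trans ?_ (Finset.mem_filter).symm)
    refine and_congr_right fun _ => and_congr_right fun _ => ?_
    exact (forall_disjSum S T fun g => Rz g D).symm
  · refine congrArg Finset.card (Finset.ext fun D => ?_)
    refine (Finset.mem_filter).trans (Iff.trans ?_ (Finset.mem_filter).symm)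
    exact Iff.rfl

theorem mem_fil {α : Type} (q : α → Prop) (inst : DecidablePred q) (s : Finset α) (a : α) :
    a ∈ @Finset.filter α q inst s ↔ a ∈ s ∧ q a := Finset.mem_filter

/-- **Main theorem.**  There is `c = ∏_{i ≥ 0} (1 - 2^{-(2i+1)}) = 0.4194...` such that for all finite sets
`S`, `S'` in `Fam14` and `T`, `T'` in `Fam49`, `S` and `S'` disjoint, `T` and `T'` disjoint:
(1) the proportion of the `D` of the base family such that all the curves `E_{M D}`, `M ∈ S`, and `A_{L D}`,
`L ∈ T`, have analytic rank `0`, finitely many rational points and no element of order two in `Ш`,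
and none of the curves `E_{M D}`, `M ∈ S'`, `A_{L D}`, `L ∈ T'`, has finitely many rational points and no
element of order two in `Ш`, tends to `c ^ (#S + #T) (1 - c) ^ (#S' + #T')`;
(2) for every `ε > 0` and all large `X` the proportion of the `D ≤ X` of the base family such that all
the curves `E_{M D}`, `M ∈ S`, and `A_{L D}`, `L ∈ T`, have analytic rank `0` is at least
`c ^ (#S + #T) - ε`. -/
theorem result : ∃ c : ℝ, 0.4194 < c ∧ c < 0.4195 ∧
    Filter.Tendsto (fun n : ℕ => ∏ i ∈ range n, (1 - (1 / 2 : ℝ) ^ (2 * i + 1)))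
      Filter.atTop (nhds c) ∧
    ∀ S T : Finset ℤ, (∀ M ∈ S, Fam14 M) → (∀ L ∈ T, Fam49 L) →
      (∀ S' T' : Finset ℤ, (∀ M ∈ S', Fam14 M) → (∀ L ∈ T', Fam49 L) →
        Disjoint S S' → Disjoint T T' →
        Filter.Tendsto (fun X : ℕ =>
          (count (fun D => All S T (fun a b => AnRankZero a b ∧ RankZeroShaTwo a b) D ∧
            All S' T' (fun a b => ¬ RankZeroShaTwo a b) D) X : ℝ) /
            (count (fun _ => True) X : ℝ)) Filter.atTop
          (nhds (c ^ (S.card + T.card) * (1 - c) ^ (S'.card + T'.card)))) ∧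
      ∀ ε : ℝ, 0 < ε → ∀ᶠ X : ℕ in Filter.atTop,
        (c ^ (S.card + T.card) - ε) * (count (fun _ => True) X : ℝ) ≤
          (count (All S T AnRankZero) X : ℝ) := by
  classical
  obtain ⟨hC, -, -, hc1, hc2⟩ := Y948.CQ.t_C2
  have hmain : ∀ S T : Finset ℤ, (∀ M ∈ S, Fam14 M) → (∀ L ∈ T, Fam49 L) →
      ∀ S' T' : Finset ℤ, (∀ M ∈ S', Fam14 M) → (∀ L ∈ T', Fam49 L) →
        Disjoint S S' → Disjoint T T' →
        Filter.Tendsto (fun X : ℕ =>
          (count (fun D => All S T (fun a b => AnRankZero a b ∧ RankZeroShaTwo a b) D ∧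
            All S' T' (fun a b => ¬ RankZeroShaTwo a b) D) X : ℝ) /
            (count (fun _ => True) X : ℝ)) Filter.atTop
          (nhds (Y703.CQ.c2 ^ (S.card + T.card) * (1 - Y703.CQ.c2) ^ (S'.card + T'.card))) := by
    intro S T hS hT S' T' hS' hT' hd1 hd2
    have h := pattern Rz Base Fm Y703.CQ.c2 joint' (S'.disjSum T')
      ((forall_disjSum _ _ _).2 ⟨hS', hT'⟩) (S.disjSum T) ((forall_disjSum _ _ _).2 ⟨hS, hT⟩) (by
        rw [Finset.disjoint_left]
        rintro (M | L) h1 h2
        · exact Finset.disjoint_left.1 hd1 (inl_mem_disjSum.1 h1) (inl_mem_disjSum.1 h2)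
        · exact Finset.disjoint_left.1 hd2 (inr_mem_disjSum.1 h1) (inr_mem_disjSum.1 h2))
    rw [card_disjSum, card_disjSum] at h
    refine h.congr fun X => congrArg₂ (fun a b : ℕ => (a : ℝ) / (b : ℝ)) ?_ ?_
    · refine congrArg Finset.card (Finset.ext fun D => ?_)
      refine (mem_fil _ _ _ _).trans (Iff.trans ?_ (mem_fil _ _ _ _).symm)
      refine and_congr_right fun _ => and_congr_right fun hD => ?_
      rw [forall_disjSum, forall_disjSum]
      refine and_congr (and_congr ?_ ?_) (and_congr ?_ ?_)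
      · refine forall_congr' fun M => forall_congr' fun hM => ?_
        constructor
        · intro h1
          have h2 := (r0_iff _ _).2 h1
          exact ⟨an14 hD (hS M hM) h2, h2⟩
        · rintro ⟨-, h2⟩
          exact (r0_iff _ _).1 h2
      · refine forall_congr' fun L => forall_congr' fun hL => ?_
        constructor
        · intro h1
          have h2 := (r0_iff _ _).2 h1
          exact ⟨an49 hD (hT L hL) h2, h2⟩
        · rintro ⟨-, h2⟩
          exact (r0_iff _ _).1 h2
      · exact forall_congr' fun M => forall_congr' fun _ => not_congr (r0_iff _ _).symm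
      · exact forall_congr' fun M => forall_congr' fun _ => not_congr (r0_iff _ _).symm
    · unfold count
      simp only [and_true]
  refine ⟨Y703.CQ.c2, hc1, hc2, ?_, fun S T hS hT => ⟨hmain S T hS hT, fun ε hε => ?_⟩⟩
  · rw [tendsto_iff_norm_sub_tendsto_zero]
    refine squeeze_zero (fun n => norm_nonneg _) (fun n => ?_)
      (tendsto_pow_atTop_nhds_zero_of_lt_one (by norm_num : (0 : ℝ) ≤ 1 / 4)
        (by norm_num : (1 / 4 : ℝ) < 1))
    rw [Real.norm_eq_abs]
    exact hC n
  · have h := hmain S T hS hT ∅ ∅ (by simp) (by simp) (disjoint_empty_right _)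
      (disjoint_empty_right _)
    rw [card_empty, add_zero, pow_zero, mul_one] at h
    have h1 := h.eventually (eventually_gt_nhds (sub_lt_self _ hε))
    filter_upwards [h1] with X hX
    have h2 : (count (fun D => All S T (fun a b => AnRankZero a b ∧ RankZeroShaTwo a b) D ∧
        All ∅ ∅ (fun a b => ¬ RankZeroShaTwo a b) D) X : ℝ) ≤ (count (All S T AnRankZero) X : ℝ) := by
      unfold count
      refine Nat.cast_le.2 (card_le_card fun D hD => ?_)
      have hD' := (mem_fil _ _ _ _).1 hD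
      exact (mem_fil _ _ _ _).2
        ⟨hD'.1, hD'.2.1, fun M hM => (hD'.2.2.1.1 M hM).1, fun L hL => (hD'.2.2.1.2 L hL).1⟩
    refine le_trans ?_ h2
    rcases (Nat.cast_nonneg (count (fun _ => True) X) : (0 : ℝ) ≤ _).eq_or_lt with h0 | h0
    · rw [← h0, mul_zero]
      exact Nat.cast_nonneg _
    · exact ((lt_div_iff₀ h0).1 hX).le

end Pool.Agent.Results.MP_03e5d0_nt.TwoCurvesAnalyticRankZero
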